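import Pool.Agent.Lib.MP_a78e1f_lc.R.Iface
import Pool.Agent.Lib.MP_6d445e_gt.H74.Pri

/-!
# Module PRXE: `PRX` implies properness (helper40)
-/

universe u v w

open Cardinal Filter MeasureTheory

namespace Pool.Agent.Lib.MP_a78e1f_lc.H40

open Pool.Agent.Lib.MP_a78e1f_lc
open Pool.Agent.Lib.MP_100a6c_lc
open Pool.Agent.Lib.MP_e6fef2_lc
open Pool.Agent.Lib.MP_6d445e_gt

section

variable {A C : Type u} [CompleteBooleanAlgebra A] [CompleteBooleanAlgebra C]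

theorem disX_bot (n : ℕ) (x : ℕ → RA A) (X : ℕ → A) : disX n x (fun _ => (⊥ : A)) X = ⊤ := by
  unfold disX
  simp

theorem gcX_bot (N : Set El.{u}) (X : ℕ → A) : gcX N X (fun _ => (⊥ : A)) = rn N X := by
  unfold gcX cut
  have h0 : (⨅ x : ℕ → RA A, ⨅ _ : In N x, ⨅ _ : Sl x, ⨆ n, disX n x (fun _ => (⊥ : A)) X) =
      ⊤ := by
    simp only [disX_bot, iSup_const, iInf_top]
  have h1 : (⨅ m : ℕ, ⨆ k : ℕ, ⨆ _ : m ≤ k, ⨅ p : ℕ, ⨅ _ : p < k, ⨅ i : ℕ, ⨅ _ : k ≤ i,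
      (⊥ : A)ᶜ) = ⊤ := by
    simp only [compl_bot, iInf_top]
    rw [iInf_eq_top]
    intro m
    refine le_antisymm le_top ?_
    exact le_iSup_of_le m (le_iSup_of_le le_rfl le_rfl)
  rw [h0, h1, inf_top_eq, inf_top_eq]

end

/-- Module PRXE. -/
theorem prxe (hRsel : RselStatement.{u}) (hEvx : EvxStatement.{u}) (hRfm : RfmStatement.{u}) :
    PrxeStatement.{u} := by
  intro A C _ _ f hf h
  have hmapc : ∀ᶠ N in club.{u}, ∀ c : C, In N c → In N (kap c : RA C) :=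
    H74.club_fun (fun c : C => (kap c : RA C))
  have hprj : ∀ᶠ N in club.{u}, ∀ c : C, In N c → In N (prj f c : A) :=
    H74.club_fun (fun c : C => (prj f c : A))
  filter_upwards [h, H74.club_const (fun _ : ℕ => (⊥ : RA C)),
    H74.club_const (fun _ : ℕ => (⊥ : RA A)), hmapc, hprj, hRsel A, (hEvx A).2.1, (hEvx C).2.1]
    with N hN h1 h2 hkc hpc hsel hA hC c hc
  obtain ⟨X, hX⟩ := hsel
  obtain ⟨hrf, -, -, -, -, -, -, hpk, -⟩ := hRfm A C f hf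
  obtain ⟨ftop, fbot, -⟩ := all_alg (RA A) (RA C) (rmap f) hrf
  obtain ⟨-, -, -, -, -, -, -, -, -, -, -, -, pmono, -⟩ := all_alg A C f hf
  have f0 : f ⊥ = ⊥ := (all_alg A C f hf).2.1
  have h3 := hN X (fun _ => ⊥) (kap c) (fun _ => ⊥) (fun _ => ⊥) (hkc c hc) h1 H74.sl_bot h2
  rw [gcX_bot, disX_bot, inf_top_eq] at h3
  have h5 : itp (rmap f) (prj (rmap f)) (kap c) (fun _ => (⊥ : RA C)) (fun _ => (⊥ : RA A)) =
      kap (prj f c) := by
    unfold itp agr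
    simp only [fbot, inf_bot_eq, compl_bot, inf_top_eq, bot_sup_eq, iInf_top, iInf_const]
    exact hpk c
  rw [h5] at h3
  simp only [f0] at h3
  rw [gcX_bot, disX_bot, inf_top_eq] at h3
  have h6 : gen A N ⊓ prj f c ≤ rn N X ⊓ ev X (kap (prj f c)) := by
    refine le_of_ae ?_
    filter_upwards [hA X] with g hg h7
    rw [Ult.mem_inf] at h7
    have h8 : rn N X ∈ g := g.mono hX h7.1
    rw [Ult.mem_inf]
    exact ⟨h8, ((hg h8).kp _ (hpc c hc)).2 h7.2⟩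
  have h9 : rn N (fun n => f (X n)) ⊓ ev (fun n => f (X n)) (kap c) ≤ gen C N ⊓ c := by
    refine le_of_ae ?_
    filter_upwards [hC fun n => f (X n)] with g hg h7
    rw [Ult.mem_inf] at h7
    rw [Ult.mem_inf]
    exact ⟨(hg h7.1).gn, ((hg h7.1).kp _ hc).1 h7.2⟩
  exact h6.trans (h3.trans (pmono _ _ h9))

end Pool.Agent.Lib.MP_a78e1f_lc.H40
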